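import Pool.Agent.Helper49D.Full
import Pool.Agent.Helper49C.Main

/-!
# From one member at one prime number to 100 percent of the members at every prime number
-/

set_option autoImplicit false
set_option linter.unusedSectionVars false

namespace Pool.Agent.Helper49D

open NumberField IsDedekindDomain Polynomial Module Filter Topology
  Pool.Agent.Y114.TF Pool.Agent.Y114.GF Pool.Agent.H204R3.GP
  Pool.Agent.Y114.MU Pool.Agent.Y114.RM Pool.Agent.R931.IR Pool.Agent.N203.RE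
  Pool.Agent.N978.HP Pool.Agent.Helper49C

variable {Γ : Type} [Group Γ] [TopologicalSpace Γ] {ι : Type} [Fintype ι] [DecidableEq ι]
  {n : ι → ℕ} {s : Pt → Gal(AlgebraicClosure ℚ/ℚ) →* Γ} {w : ι → ℤ} {m : ℕ}
  {D : MvPolynomial (Fin 2) ℤ} {P : ℕ → Pt → ι → ℚ[X]}
  {ρ : ∀ (ℓ : ℕ) [Fact ℓ.Prime], Reps Γ n ℓ} {𝔤 : Submodule ℚ (End ℚ (Betti n))}

omit [TopologicalSpace Γ] [Fintype ι] [DecidableEq ι] in
theorem connected_iff {ℓ : ℕ} [Fact ℓ.Prime] (ρ : Reps Γ n ℓ) :
    Connected ρ ↔ ZariskiConnected ρ := by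
  have h1 : ∀ γ, entry ρ γ = entries ρ γ := by
    intro γ
    funext x
    rw [entries, LinearMap.toMatrix'_apply, entry]
  unfold Connected ZariskiConnected
  simp only [h1]

theorem typeA_of {H : Type} [AddCommGroup H] [Module ℚ H] {𝔤 : Submodule ℚ (End ℚ H)}
    (h : TypeA 𝔤) : Pool.Agent.Helper49B.TypeA 𝔤 := by
  obtain ⟨J, N, f, hf⟩ := h
  refine ⟨J, N, f, hf.map, fun X hX hX0 Y hY => ?_, hf.image⟩
  exact ((hf.kernel X ⟨hX, hX0⟩).2 Y hY).symm

/-- The member as a motive over `ℚ`. -/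
theorem member_realizations (h : Family s w m D P ρ 𝔤) {t : Pt} (ht : InU D t) :
    Realizations (MonoidHom.id Gal(AlgebraicClosure ℚ/ℚ)) w (badPlaces m D t)
      (fun v => P (q v) t) (fun ℓ _ => restrictTo (ρ ℓ) (s t)) 𝔤 :=
  { continuous_point := continuous_id
    continuous := fun ℓ _ i => (h.continuous ℓ i).comp (h.continuous_point t ht)
    finite := (h.realizations ht).finite
    good := fun ℓ _ v hv hvℓ i => (h.realizations ht).good ℓ v hv hvℓ i
    reductive := h.reductive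
    motivic := fun ℓ _ => motivic_restrict (h.motivic ℓ) (s t) }

/-- The places of maximal rank of a member. -/
theorem member_maximal {t : Pt} {r p : ℕ} (hgood : GoodAt m D t p)
    (hr : IndepRoots r (Set.range (P p t))) :
    MaximalRankAt (badPlaces m D t) (fun v => P (q v) t) r p := by
  obtain ⟨v₀, hv₀⟩ := exists_above hgood.1
  refine ⟨hgood.1, fun v hv => unramified hgood.1 hv, ?_, ?_, v₀, hv₀, ?_⟩
  · intro v hv hvb
    apply hvb
    show GoodAt m D t (q v)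
    rw [q_eq hgood.1 hv]
    exact hgood
  · exact independentPlaces_of_one _ (fun v => above_iff hgood.1 hv₀ v)
  · show IndepRoots r (Set.range (P (q v₀) t))
    rw [q_eq hgood.1 hv₀]
    exact hr

/-- **100 percent of the members, at every prime number.** -/
theorem main (hSV : S_SV) (hDV : S_DV) (hAA : S_AA) (h : Family s w m D P ρ 𝔤)
    (hF : FrobeniusReduction s m D ρ) (r : ℕ) (hr : RatRankLE 𝔤 r)
    {t₀ : Pt} (ht₀ : InU D t₀) (c : ℕ)
    (hc : ∀ v i, GoodAt m D t₀ (q v) → IntegralRoots c v (P (q v) t₀ i))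
    (ℓ₀ : ℕ) [hℓ₀ : Fact ℓ₀.Prime] (hfull : FullImage (ρ ℓ₀) (s t₀))
    (hconn : Connected (restrictTo (ρ ℓ₀) (s t₀))) (σ : Gal(AlgebraicClosure ℚ/ℚ))
    (hσ : IndependentEigenvalues (restrictTo (ρ ℓ₀) (s t₀)) σ r) :
    AlmostAll fun t => InU D t ∧ FullImage (ρ ℓ₀) (s t) ∧ ∀ (ℓ : ℕ) [Fact ℓ.Prime],
      Semisimple (restrictTo (ρ ℓ) (s t)) ∧
        (TateMotivated (restrictTo (ρ ℓ) (s t)) 𝔤 ↔ EndosMotivated (restrictTo (ρ ℓ) (s t)) 𝔤) ∧
        LargeRank (restrictTo (ρ ℓ) (s t)) 𝔤 r ∧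
        (TypeA 𝔤 → TateMotivated (restrictTo (ρ ℓ) (s t)) 𝔤) := by
  have h1 := h.almostAll_max hSV hDV ht₀ c hc ℓ₀ σ r hσ (fun _ => 0)
    (fun i => ⟨Fin.elim0, fun k => k.elim0, fun e _ => Subsingleton.elim _ _⟩) 2
  have h2 := full_almostAll hSV hDV hAA h hF ht₀ ℓ₀ hfull
  refine almostAll_mono (hAA _ _ h1 h2) ?_
  rintro t ⟨⟨F, hF2, hFp⟩, hft⟩
  obtain ⟨p₁, hp₁, -⟩ := exists_ne hF2 0
  obtain ⟨p₂, hp₂, hne⟩ := exists_ne hF2 p₁
  have htU : InU D t := inU_of_good (hFp p₁ hp₁).1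
  refine ⟨htU, hft, fun ℓ hℓ => ?_⟩
  have hconn' : ZariskiConnected (restrictTo (ρ ℓ₀) (s t)) := by
    refine zariskiConnected_of_same (r₁ := restrictTo (ρ ℓ₀) (s t₀)) (fun a => ?_) (fun b => ?_)
      ((connected_iff _).1 hconn)
    · exact hft (s t₀ a)
    · obtain ⟨a, ha⟩ := hfull (s t b)
      exact ⟨a, fun i => (ha i).symm⟩
  obtain ⟨h3, h4, ⟨𝔥, hk, hred, hcen⟩, h6⟩ := Pool.Agent.Helper49C.main (fun v => P (q v) t) (badPlaces m D t)
    (fun ℓ _ => restrictTo (ρ ℓ) (s t)) (member_realizations h htU) r hr hne.symm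
    (member_maximal (hFp p₁ hp₁).1 (hFp p₁ hp₁).2.1)
    (member_maximal (hFp p₂ hp₂).1 (hFp p₂ hp₂).2.1) ℓ₀ hconn' ℓ
  exact ⟨h3, h4, ⟨𝔥, hk, hred, fun Z hZ => hcen Z hZ.1 hZ.2⟩, fun hA => h6 (typeA_of hA)⟩

/-- A property of almost all points holds for some point. -/
theorem exists_of_almostAll {A : Pt → Prop} (hA : AlmostAll A) : ∃ t, A t := by
  by_contra hcon
  push Not at hcon
  have h1 : Tendsto (fun _ : ℕ => (1 : ℝ)) atTop (𝓝 0) := by
    refine hA.congr' ?_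
    filter_upwards [eventually_ge_atTop 1] with H hH
    have h2 : Nat.card {t : Pt // t.height ≤ H ∧ ¬ A t} = Nat.card {t : Pt // t.height ≤ H} :=
      Nat.card_congr (Equiv.subtypeEquivRight fun t => ⟨fun h => h.1, fun h => ⟨h, hcon t⟩⟩)
    have h3 : 0 < Nat.card {t : Pt // t.height ≤ H} := by
      have := finite_height H
      have : Nonempty {t : Pt // t.height ≤ H} :=
        ⟨⟨⟨1, 0, isCoprime_one_left⟩, by
          show max (1 : ℤ).natAbs (0 : ℤ).natAbs ≤ H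
          simpa using hH⟩⟩
      exact Nat.card_pos
    rw [h2, div_self (by exact_mod_cast h3.ne')]
  have h2 := tendsto_nhds_unique h1 tendsto_const_nhds
  exact zero_ne_one h2

omit [Fintype ι] in
/-- The Tate tensors of the generic member, if those of a member are motivated. -/
theorem tate_generic (h : Family s w m D P ρ 𝔤) {ℓ : ℕ} [Fact ℓ.Prime] {t : Pt}
    (ht : TateMotivated (restrictTo (ρ ℓ) (s t)) 𝔤) : TateMotivated (ρ ℓ) 𝔤 := by
  intro m' φ
  refine ⟨fun hφ => (ht m' φ).1 ?_, IsMotivic.tate (h.motivic ℓ) m' φ⟩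
  obtain ⟨Δ, hΔ, hΔφ⟩ := hφ
  refine ⟨Δ.comap (s t), ?_, fun γ hγ v => ?_⟩
  rotate_left
  · have h1 := hΔφ (s t γ) hγ v
    rw [← map_inv] at h1
    exact h1
  refine ⟨fun h0 => ?_⟩
  have h1 : Δ.normalCore.FiniteIndex := inferInstance
  have h2 : (Δ.normalCore.comap (s t)).index ≠ 0 := by
    intro h3
    apply h1.index_ne_zero
    rw [Subgroup.index_comap] at h3
    have h4 := Subgroup.relIndex_dvd_index_of_normal Δ.normalCore (s t).range
    rw [h3] at h4
    exact zero_dvd_iff.1 h4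
  have h3 : (Δ.normalCore.comap (s t)).FiniteIndex := ⟨h2⟩
  have h4 : (Δ.comap (s t)).FiniteIndex :=
    Subgroup.finiteIndex_of_le (Subgroup.comap_mono Δ.normalCore_le)
  exact h4.index_ne_zero h0

end Pool.Agent.Helper49D
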