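import Mathlib

/-!
# A filtered group whose graded pieces are compared by the power map
-/

set_option autoImplicit false
set_option linter.unusedSectionVars false

namespace Pool.Agent.Helper49D

/-- Let `N k` be a decreasing sequence of subgroups, with residue maps `R k` on `N k` modulo
`N (k + 1)` in a finite set, such that the power map with the exponent `ℓ` maps `N k` to `N (k + 1)`
with the same residue, for `k ≥ 1`. Then there is a `k₀` such that every subgroup which represents all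
cosets of `N (k₀ + 1)` represents all cosets of all `N k`. -/
theorem frattini {Γ F : Type} [Group Γ] [Finite F] (N : ℕ → Subgroup Γ)
    (hN : ∀ k, N (k + 1) ≤ N k) (R : ℕ → Γ → F) (ℓ : ℕ)
    (h1 : ∀ k, ∀ γ ∈ N k, ∀ δ ∈ N k, R k γ = R k δ → γ⁻¹ * δ ∈ N (k + 1))
    (h2 : ∀ k, ∀ γ ∈ N k, ∀ η ∈ N (k + 1), R k (γ * η) = R k γ)
    (h3 : ∀ k, 1 ≤ k → ∀ γ ∈ N k, γ ^ ℓ ∈ N (k + 1) ∧ R (k + 1) (γ ^ ℓ) = R k γ) :
    ∃ k₀, ∀ H : Subgroup Γ, (∀ γ, ∃ h ∈ H, h⁻¹ * γ ∈ N (k₀ + 1)) →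
      ∀ k γ, ∃ h ∈ H, h⁻¹ * γ ∈ N k := by
  classical
  let A : ℕ → Set F := fun k => {x | ∃ γ ∈ N k, R k γ = x}
  have hA : ∀ k, 1 ≤ k → A k ≤ A (k + 1) := by
    rintro k hk x ⟨γ, hγ, rfl⟩
    obtain ⟨h4, h5⟩ := h3 k hk γ hγ
    exact ⟨γ ^ ℓ, h4, h5⟩
  let a : ℕ →o Set F := ⟨fun k => A (k + 1), monotone_nat_of_le_succ fun k => hA (k + 1) (by omega)⟩
  obtain ⟨n, hn⟩ := WellFoundedGT.monotone_chain_condition a
  have hn' : ∀ k, n + 1 ≤ k → A (n + 1) = A k := by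
    intro k hk
    obtain ⟨m, rfl⟩ : ∃ m, k = m + 1 := ⟨k - 1, by omega⟩
    exact hn m (by omega)
  have hanti : Antitone N := antitone_nat_of_succ_le hN
  refine ⟨n + 1, fun H hH => ?_⟩
  -- the residues of `H`
  have hres : ∀ k, n + 1 ≤ k → ∀ x ∈ A k, ∃ h ∈ H, h ∈ N k ∧ R k h = x := by
    intro k hk
    induction k, hk using Nat.le_induction with
    | base =>
      rintro x ⟨γ, hγ, rfl⟩
      obtain ⟨h, hh, hhγ⟩ := hH γ
      have h5 : h ∈ N (n + 1) := by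
        have h6 : h = γ * (h⁻¹ * γ)⁻¹ := by group
        rw [h6]
        exact (N (n + 1)).mul_mem hγ ((N (n + 1)).inv_mem (hN _ hhγ))
      refine ⟨h, hh, h5, ?_⟩
      have h7 := h2 (n + 1) h h5 _ hhγ
      rw [mul_inv_cancel_left] at h7
      exact h7.symm
    | succ k hk ih =>
      intro x hx
      rw [← hn' (k + 1) (by omega), hn' k hk] at hx
      obtain ⟨h, hh, hhk, hhx⟩ := ih x hx
      obtain ⟨h4, h5⟩ := h3 k (by omega) h hhk
      exact ⟨h ^ ℓ, H.pow_mem hh ℓ, h4, h5.trans hhx⟩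
  have hall : ∀ k, n + 1 ≤ k → ∀ γ, ∃ h ∈ H, h⁻¹ * γ ∈ N (k + 1) := by
    intro k hk
    induction k, hk using Nat.le_induction with
    | base => exact hH
    | succ k hk ih =>
      intro γ
      obtain ⟨h, hh, hhγ⟩ := ih γ
      obtain ⟨h', hh', hh'k, hh'R⟩ := hres (k + 1) (by omega) (R (k + 1) (h⁻¹ * γ)) ⟨_, hhγ, rfl⟩
      refine ⟨h * h', H.mul_mem hh hh', ?_⟩
      have h4 := h1 (k + 1) h' hh'k _ hhγ hh'R
      rwa [mul_inv_rev, mul_assoc]
  intro k γ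
  obtain ⟨h, hh, hhγ⟩ := hall (max k (n + 1)) (le_max_right _ _) γ
  exact ⟨h, hh, hanti ((le_max_left k (n + 1)).trans (Nat.le_succ _)) hhγ⟩

end Pool.Agent.Helper49D
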