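import Pool.Agent.Helper49D.Dv
import Pool.Agent.Helper49D.Frat
import Pool.Agent.Helper49C.Conn

/-!
# The principal congruence subgroups, and subgroups with the full image
-/

set_option autoImplicit false
set_option linter.unusedSectionVars false

namespace Pool.Agent.Helper49D

open Module Pool.Agent.Y114.RM Pool.Agent.Helper49C

section alg

variable {Γ : Type} [Group Γ] {ι : Type} {n : ι → ℕ} {ℓ : ℕ} [hℓ : Fact ℓ.Prime]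
  (ρ : Reps Γ n ℓ)

/-- The elements which act as the identity modulo `ℓ ^ (k + 1)`. -/
def Cg (k : ℕ) (γ : Γ) : Prop := ∀ i, Dv (k + 1) (mx (ρ i) γ - 1)

variable {ρ}

theorem Cg.integral {k : ℕ} {γ : Γ} (h : Cg ρ k γ) (i : ι) : Dv 0 (mx (ρ i) γ) := by
  have h3 := dv_add (dv_mono (Nat.zero_le _) (h i)) dv_one
  rwa [sub_add_cancel] at h3

theorem Cg.integral_inv {k : ℕ} {γ : Γ} (h : Cg ρ k γ) (i : ι) : Dv 0 (mx (ρ i) γ⁻¹) :=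
  dv_inv (mx_mul_inv (ρ i) γ) (dv_mono (by omega) (h i))

theorem Cg.mul {k : ℕ} {γ δ : Γ} (hγ : Cg ρ k γ) (hδ : Cg ρ k δ) : Cg ρ k (γ * δ) := by
  intro i
  have h1 : mx (ρ i) (γ * δ) - 1 = (mx (ρ i) γ - 1) * mx (ρ i) δ + (mx (ρ i) δ - 1) := by
    rw [mx_mul, Matrix.sub_mul, Matrix.one_mul]
    abel
  rw [h1]
  exact dv_add (dv_mul_right (hγ i) (hδ.integral i)) (hδ i)

theorem Cg.inv {k : ℕ} {γ : Γ} (hγ : Cg ρ k γ) : Cg ρ k γ⁻¹ := by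
  intro i
  have h1 : mx (ρ i) γ⁻¹ - 1 = -((mx (ρ i) γ - 1) * mx (ρ i) γ⁻¹) := by
    rw [Matrix.sub_mul, mx_mul_inv, Matrix.one_mul]
    abel
  rw [h1]
  exact dv_neg (dv_mul_right (hγ i) (hγ.integral_inv i))

variable (ρ) in
/-- the principal congruence subgroup modulo `ℓ ^ (k + 1)` -/
def cong (k : ℕ) : Subgroup Γ where
  carrier := {γ | Cg ρ k γ}
  mul_mem' := fun h h' => h.mul h'
  one_mem' := by
    intro i
    rw [mx_one, sub_self]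
    exact dv_zero _
  inv_mem' := fun h => h.inv

theorem cong_succ (k : ℕ) : cong ρ (k + 1) ≤ cong ρ k := fun _ h i => dv_mono (by omega) (h i)

variable (ρ) in
/-- the residue -/
noncomputable def res (k : ℕ) (γ : Γ) : ∀ i, Fin (n i) → Fin (n i) → ZMod ℓ :=
  fun i x y => red ((mx (ρ i) γ - 1) x y * ((ℓ : ℚ_[ℓ]) ^ (k + 1))⁻¹)

theorem norm_scale (x : ℚ_[ℓ]) (k : ℕ) :
    ‖x * ((ℓ : ℚ_[ℓ]) ^ k)⁻¹‖ = ‖x‖ * (((ℓ : ℝ)⁻¹) ^ k)⁻¹ := by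
  rw [norm_mul, norm_inv, norm_pow, Padic.norm_p]

theorem norm_scale_le {x : ℚ_[ℓ]} {k j : ℕ} (h : ‖x‖ ≤ ((ℓ : ℝ)⁻¹) ^ (k + j)) :
    ‖x * ((ℓ : ℚ_[ℓ]) ^ k)⁻¹‖ ≤ ((ℓ : ℝ)⁻¹) ^ j := by
  have h0 : (0 : ℝ) < ((ℓ : ℝ)⁻¹) ^ k := pow_pos inv_pos' k
  rw [norm_scale, mul_inv_le_iff₀ h0, mul_comm, ← pow_add]
  exact h

theorem norm_scale_iff {x : ℚ_[ℓ]} {k j : ℕ} :
    ‖x * ((ℓ : ℚ_[ℓ]) ^ k)⁻¹‖ ≤ ((ℓ : ℝ)⁻¹) ^ j ↔ ‖x‖ ≤ ((ℓ : ℝ)⁻¹) ^ (k + j) := by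
  have h0 : (0 : ℝ) < ((ℓ : ℝ)⁻¹) ^ k := pow_pos inv_pos' k
  rw [norm_scale, mul_inv_le_iff₀ h0, mul_comm, ← pow_add]

theorem norm_scale_one {x : ℚ_[ℓ]} {k : ℕ} (h : ‖x‖ ≤ ((ℓ : ℝ)⁻¹) ^ k) :
    ‖x * ((ℓ : ℚ_[ℓ]) ^ k)⁻¹‖ ≤ 1 := by
  have h1 := norm_scale_le (ℓ := ℓ) (x := x) (k := k) (j := 0) (by rwa [add_zero])
  rwa [pow_zero] at h1

theorem res_eq_iff {k : ℕ} {γ δ : Γ} (hγ : Cg ρ k γ) (hδ : Cg ρ k δ) :
    res ρ k γ = res ρ k δ ↔ ∀ i, Dv (k + 2) (mx (ρ i) γ - mx (ρ i) δ) := by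
  have h1 : ∀ i x y, res ρ k γ i x y = res ρ k δ i x y ↔
      ‖(mx (ρ i) γ - mx (ρ i) δ) x y‖ ≤ ((ℓ : ℝ)⁻¹) ^ (k + 2) := by
    intro i x y
    rw [res, res, red_eq_iff (norm_scale_one (hγ i x y)) (norm_scale_one (hδ i x y)), ← sub_mul,
      ← pow_one ((ℓ : ℝ)⁻¹), norm_scale_iff, pow_one]
    have h2 : (mx (ρ i) γ - 1) x y - (mx (ρ i) δ - 1) x y = (mx (ρ i) γ - mx (ρ i) δ) x y := by
      rw [Matrix.sub_apply, Matrix.sub_apply, Matrix.sub_apply]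
      ring
    rw [h2]
  constructor
  · intro h i x y
    exact (h1 i x y).1 (by rw [h])
  · intro h
    funext i x y
    exact (h1 i x y).2 (h i x y)

theorem res_one {k : ℕ} {γ δ : Γ} (hγ : γ ∈ cong ρ k) (hδ : δ ∈ cong ρ k)
    (h : res ρ k γ = res ρ k δ) : γ⁻¹ * δ ∈ cong ρ (k + 1) := by
  intro i
  have h1 : mx (ρ i) (γ⁻¹ * δ) - 1 = mx (ρ i) γ⁻¹ * -(mx (ρ i) γ - mx (ρ i) δ) := by
    rw [neg_sub, Matrix.mul_sub, mx_inv_mul, mx_mul]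
  rw [h1]
  exact dv_mul_left (Cg.integral_inv hγ i) (dv_neg ((res_eq_iff hγ hδ).1 h i))

theorem res_two {k : ℕ} {γ δ : Γ} (hγ : γ ∈ cong ρ k) (hδ : δ ∈ cong ρ (k + 1)) :
    res ρ k (γ * δ) = res ρ k γ := by
  have hδ' : δ ∈ cong ρ k := cong_succ k hδ
  refine (res_eq_iff (Cg.mul hγ hδ') hγ).2 fun i => ?_
  have h1 : mx (ρ i) (γ * δ) - mx (ρ i) γ = mx (ρ i) γ * (mx (ρ i) δ - 1) := by
    rw [Matrix.mul_sub, Matrix.mul_one, mx_mul]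
  rw [h1]
  exact dv_mul_left (Cg.integral hγ i) (hδ i)

theorem res_three {k : ℕ} (hk : 1 ≤ k) {γ : Γ} (hγ : γ ∈ cong ρ k) :
    γ ^ ℓ ∈ cong ρ (k + 1) ∧ res ρ (k + 1) (γ ^ ℓ) = res ρ k γ := by
  have hE : ∀ i, Dv (k + 3) (mx (ρ i) γ ^ ℓ - 1 - (ℓ : ℚ_[ℓ]) • (mx (ρ i) γ - 1)) := fun i =>
    dv_pow_prime (by omega) (hγ i)
  have hmem : Cg ρ (k + 1) (γ ^ ℓ) := by
    intro i
    rw [mx_pow]
    have h1 := dv_add (dv_mono (by omega) (hE i)) (dv_prime (hγ i))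
    rwa [sub_add_cancel] at h1
  refine ⟨hmem, ?_⟩
  funext i x y
  rw [res, res, red_eq_iff (norm_scale_one (hmem i x y)) (norm_scale_one (hγ i x y))]
  have hℓ0 : (ℓ : ℚ_[ℓ]) ≠ 0 := Nat.cast_ne_zero.2 hℓ.out.ne_zero
  have h1 : (mx (ρ i) (γ ^ ℓ) - 1) x y * ((ℓ : ℚ_[ℓ]) ^ (k + 1 + 1))⁻¹ -
      (mx (ρ i) γ - 1) x y * ((ℓ : ℚ_[ℓ]) ^ (k + 1))⁻¹ =
      (mx (ρ i) γ ^ ℓ - 1 - (ℓ : ℚ_[ℓ]) • (mx (ρ i) γ - 1)) x y *
        ((ℓ : ℚ_[ℓ]) ^ (k + 1 + 1))⁻¹ := by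
    rw [mx_pow, Matrix.sub_apply _ ((ℓ : ℚ_[ℓ]) • _), Matrix.smul_apply, smul_eq_mul, sub_mul]
    congr 1
    rw [pow_succ (ℓ : ℚ_[ℓ]) (k + 1), mul_inv]
    field_simp
  rw [h1, ← pow_one ((ℓ : ℝ)⁻¹)]
  exact norm_scale_le (hE i x y)

/-- There is a congruence subgroup such that every subgroup of `Γ` which represents all its cosets
represents all cosets of all congruence subgroups. -/
theorem exists_level [Finite ι] (ρ : Reps Γ n ℓ) : ∃ k₀, ∀ H : Subgroup Γ,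
    (∀ γ, ∃ h ∈ H, h⁻¹ * γ ∈ cong ρ k₀) → ∀ k γ, ∃ h ∈ H, h⁻¹ * γ ∈ cong ρ k := by
  have hne : NeZero ℓ := ⟨hℓ.out.ne_zero⟩
  have : Finite (∀ i, Fin (n i) → Fin (n i) → ZMod ℓ) := inferInstance
  obtain ⟨k₀, h⟩ := frattini (cong ρ) cong_succ (res ρ) ℓ
    (fun k γ hγ δ hδ h => res_one hγ hδ h) (fun k γ hγ η hη => res_two hγ hη)
    (fun k hk γ hγ => res_three hk hγ)
  exact ⟨k₀ + 1, h⟩

end alg

section top

variable {Γ : Type} [Group Γ] {ι : Type} {n : ι → ℕ} {ℓ : ℕ} [hℓ : Fact ℓ.Prime]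
  {ρ : Reps Γ n ℓ} {G : Type} [Group G] [TopologicalSpace G] [IsTopologicalGroup G]
  {s : G →* Γ}

theorem continuous_point_mx (hs : Conts (restrictTo ρ s)) (i : ι) :
    Continuous fun σ : G => mx (ρ i) (s σ) := hs i

theorem continuous_conj_mx (hs : Conts (restrictTo ρ s)) (i : ι) (γ δ : Γ) :
    Continuous fun σ : G => mx (ρ i) (γ * s σ * δ) := by
  have h1 : (fun σ : G => mx (ρ i) (γ * s σ * δ)) =
      fun σ => mx (ρ i) γ * mx (ρ i) (s σ) * mx (ρ i) δ := by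
    funext σ
    rw [mx_mul, mx_mul]
  rw [h1]
  exact (continuous_const.matrix_mul (continuous_point_mx hs i)).matrix_mul continuous_const

theorem isClosed_conj (hs : Conts (restrictTo ρ s)) (k : ℕ) (γ δ : Γ) :
    IsClosed {σ : G | γ * s σ * δ ∈ cong ρ k} := by
  have h1 : {σ : G | γ * s σ * δ ∈ cong ρ k} = ⋂ i, ⋂ x, ⋂ y,
      {σ : G | ‖(mx (ρ i) (γ * s σ * δ) - 1) x y‖ ≤ ((ℓ : ℝ)⁻¹) ^ (k + 1)} := by
    ext σ
    simp only [Set.mem_iInter]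
    rfl
  rw [h1]
  refine isClosed_iInter fun i => isClosed_iInter fun x => isClosed_iInter fun y => ?_
  refine isClosed_le (Continuous.norm ?_) continuous_const
  exact ((continuous_conj_mx hs i γ δ).sub continuous_const).matrix_elem x y

theorem isOpen_conj [Finite ι] (hs : Conts (restrictTo ρ s)) (k : ℕ) (γ δ : Γ) :
    IsOpen {σ : G | γ * s σ * δ ∈ cong ρ k} := by
  have h1 : {σ : G | γ * s σ * δ ∈ cong ρ k} = ⋂ i, ⋂ x, ⋂ y,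
      {σ : G | (mx (ρ i) (γ * s σ * δ) - 1) x y ∈
        Metric.closedBall (0 : ℚ_[ℓ]) (((ℓ : ℝ)⁻¹) ^ (k + 1))} := by
    ext σ
    simp only [Set.mem_iInter]
    constructor
    · intro h i x y
      exact mem_closedBall_zero_iff.2 (h i x y)
    · intro h i x y
      exact mem_closedBall_zero_iff.1 (h i x y)
  rw [h1]
  refine isOpen_iInter_of_finite fun i => isOpen_iInter_of_finite fun x =>
    isOpen_iInter_of_finite fun y => ?_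
  refine IsOpen.preimage ?_ (IsUltrametricDist.isOpen_closedBall _ (pow_pos inv_pos' _).ne')
  exact ((continuous_conj_mx hs i γ δ).sub continuous_const).matrix_elem x y

/-- If the image of the compact group `G` represents all cosets of all congruence subgroups, it has
the full image. -/
theorem full_of_cong [CompactSpace G] (hs : Conts (restrictTo ρ s))
    (h : ∀ k γ, ∃ h ∈ s.range, h⁻¹ * γ ∈ cong ρ k) (γ : Γ) : ∃ σ : G, ∀ i, ρ i γ = ρ i (s σ) := by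
  let Z : ℕ → Set G := fun k => {σ | γ⁻¹ * s σ * 1 ∈ cong ρ k}
  have hZ : (⋂ k, Z k).Nonempty := by
    refine IsCompact.nonempty_iInter_of_sequence_nonempty_isCompact_isClosed Z
      (fun k σ hσ => cong_succ k hσ) (fun k => ?_) ?_ fun k => isClosed_conj hs k _ _
    · obtain ⟨_, ⟨σ, rfl⟩, hσ⟩ := h k γ
      refine ⟨σ, ?_⟩
      show γ⁻¹ * s σ * 1 ∈ cong ρ k
      have h1 := (cong ρ k).inv_mem hσ
      rwa [mul_inv_rev, inv_inv, ← mul_one (γ⁻¹ * s σ)] at h1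
    · exact (isClosed_conj hs 0 _ _).isCompact
  obtain ⟨σ, hσ⟩ := hZ
  refine ⟨σ, fun i => ?_⟩
  have h1 : mx (ρ i) (γ⁻¹ * s σ * 1) - 1 = 0 := by
    ext x y
    rw [Matrix.zero_apply, ← norm_le_zero_iff]
    refine ge_of_tendsto' (x := Filter.atTop)
      ((tendsto_pow_atTop_nhds_zero_of_lt_one (inv_nonneg' (ℓ := ℓ)) inv_lt_one').comp
        (Filter.tendsto_add_atTop_nat 1)) fun k => ?_
    exact Set.mem_iInter.1 hσ k i x y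
  have h2 : mx (ρ i) (s σ) = mx (ρ i) γ := by
    have h3 : γ * (γ⁻¹ * s σ * 1) = s σ := by group
    rw [← h3, mx_mul, sub_eq_zero.1 h1, Matrix.mul_one]
  exact (LinearMap.toMatrix'.injective h2).symm

end top

end Pool.Agent.Helper49D
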