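import Pool.Agent.N978.HP.Defs

/-!
# Families: Frobenius elements and the reduction of the parameter; members with the full image
-/

set_option autoImplicit false

namespace Pool.Agent.Helper49D

open NumberField IsDedekindDomain Module TensorProduct Pool.Agent.Y114.TF Pool.Agent.Y114.GF
  Pool.Agent.Y114.MU Pool.Agent.Y114.RM Pool.Agent.N203.RE Pool.Agent.N978.HP

section general

/-- The endomorphisms of the representation `r` of `Γ` commute with `𝔥`. -/
def FixedBy {k V Γ : Type} [Field k] [AddCommGroup V] [Module k V] [Group Γ]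
    (r : Representation k Γ V) (𝔥 : Submodule k (End k V)) : Prop :=
  ∀ Y : End k V, (∀ γ, r γ * Y = Y * r γ) → ∀ X ∈ 𝔥, X * Y = Y * X

/-- `Z` is in the center of `𝔥`. -/
def CentralIn {k V : Type} [Field k] [AddCommGroup V] [Module k V] (𝔥 : Submodule k (End k V))
    (Z : End k V) : Prop :=
  Z ∈ 𝔥 ∧ ∀ X ∈ 𝔥, X * Z = Z * X

/-- `Z` acts by a scalar on each summand. -/
def BlockScalar {k : Type} [Field k] {ι : Type} {V : ι → Type} [∀ i, AddCommGroup (V i)]
    [∀ i, Module k (V i)] (Z : End k (∀ i, V i)) : Prop :=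
  ∃ c : ι → k, ∀ x i, Z x i = c i • x i

/-- the commutator -/
def br {A : Type} [Ring A] (a b : A) : A := a * b - b * a

/-- A product of algebras of complex matrices. -/
abbrev Mats {J : ℕ} (N : Fin J → ℕ) : Type := ∀ j, Matrix (Fin (N j)) (Fin (N j)) ℂ

/-- `f` is a homomorphism of Lie algebras from `G` to a product of algebras of complex matrices,
whose kernel is contained in the center of `G`, and whose image contains all families of matrices
with trace zero. -/
structure OntoTraceZero {V : Type} [AddCommGroup V] [Module ℂ V] {J : ℕ} {N : Fin J → ℕ}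
    (G : Submodule ℂ (End ℂ V)) (f : End ℂ V →ₗ[ℂ] Mats N) : Prop where
  map : ∀ X ∈ G, ∀ Y ∈ G, f (br X Y) = br (f X) (f Y)
  kernel : ∀ X, X ∈ G ∧ f X = 0 → CentralIn G X
  image : ∀ A : Mats N, (∀ j, (A j).trace = 0) → ∃ X ∈ G, f X = A

/-- `𝔤` is of type A: there are matrix sizes `N j` and a homomorphism of Lie algebras from `𝔤 ⊗ ℂ` to
the product of the algebras of complex matrices of size `N j`, whose kernel is contained in the
center of `𝔤 ⊗ ℂ`, and whose image contains all families of matrices with trace zero. -/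
def TypeA {H : Type} [AddCommGroup H] [Module ℚ H] (𝔤 : Submodule ℚ (End ℚ H)) : Prop :=
  ∃ (J : ℕ) (N : Fin J → ℕ) (f : End ℂ (ℂ ⊗[ℚ] H) →ₗ[ℂ] Mats N), OntoTraceZero (bcS ℂ 𝔤) f

end general

variable {Γ : Type} [Group Γ] {ι : Type} {n : ι → ℕ}

/-- The Frobenius elements depend only on the reduction of the parameter: if `p` does not divide `m` and
the points `t`, `t'` have the same reduction modulo `p`, a point of `U`, then a Frobenius element at
`p` acts on the `ℓ`-adic realizations of `M_t` and `M_t'` in the same way, up to the conjugation by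
an element of the fundamental group `Γ` of `U`, for all `ℓ ≠ p`. (The Frobenius element is mapped to
the conjugacy class of the common reduction in the fundamental group of the model of `U` over
`ℤ[1/mℓ]`, over which the `ℓ`-adic realization extends.) -/
def FrobeniusReduction (s : Pt → Gal(AlgebraicClosure ℚ/ℚ) →* Γ) (m : ℕ)
    (D : MvPolynomial (Fin 2) ℤ) (ρ : ∀ (ℓ : ℕ) [Fact ℓ.Prime], Reps Γ n ℓ) : Prop :=
  ∀ (ℓ : ℕ) [Fact ℓ.Prime] (t t' : Pt) (p : ℕ), GoodAt m D t p → GoodAt m D t' p → t.Cong p t' →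
    p ≠ ℓ → ∀ v, Above v p → ∀ Q, PrimeOver Q v → ∀ φ, IsFrobAt Q (q v) φ →
      ∃ γ : Γ, ∀ i, Same (ρ ℓ) i (s t φ) (γ * s t' φ * γ⁻¹)

/-- The image of `Δ` by the homomorphism `s` has the same image as `Γ` under the representations. -/
def FullImage {ℓ : ℕ} [Fact ℓ.Prime] (ρ : Reps Γ n ℓ) {Δ : Type} [Group Δ] (s : Δ →* Γ) : Prop :=
  ∀ γ : Γ, ∃ σ : Δ, ∀ i, Same ρ i γ (s σ)

/-- The entries of the matrices of `γ` in the representations `ρ i`. -/
noncomputable def entry {ℓ : ℕ} [Fact ℓ.Prime] (ρ : Reps Γ n ℓ) (γ : Γ)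
    (x : Σ i, Fin (n i) × Fin (n i)) : ℚ_[ℓ] :=
  ρ x.1 γ (Pi.single x.2.2 1) x.2.1

/-- The algebraic monodromy group (the Zariski closure of the image of `Γ`) is connected: if a
polynomial in the entries of the matrices vanishes on a subgroup of finite index, it vanishes on
`Γ`. -/
def Connected {ℓ : ℕ} [Fact ℓ.Prime] (ρ : Reps Γ n ℓ) : Prop :=
  ∀ Δ : Subgroup Γ, Δ.FiniteIndex → ∀ f : MvPolynomial (Σ i, Fin (n i) × Fin (n i)) ℚ_[ℓ],
    (∀ γ ∈ Δ, MvPolynomial.eval (entry ρ γ) f = 0) → ∀ γ, MvPolynomial.eval (entry ρ γ) f = 0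

/-- All endomorphisms of the realization which commute with `Γ` are motivated: they commute with
`𝔤 ⊗ ℚ_ℓ`. -/
def EndosMotivated {ℓ : ℕ} [Fact ℓ.Prime] (ρ : Reps Γ n ℓ) (𝔤 : Submodule ℚ (End ℚ (Betti n))) :
    Prop :=
  FixedBy (sumRep ρ) (scalars ℓ 𝔤)

/-- The Lie algebra of the endomorphisms which kill all Tate tensors is a reductive subalgebra of
`𝔤 ⊗ ℚ_ℓ` of rank at least `r`, and its center acts by scalars on the summands. -/
def LargeRank {ℓ : ℕ} [Fact ℓ.Prime] (ρ : Reps Γ n ℓ) (𝔤 : Submodule ℚ (End ℚ (Betti n)))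
    (r : ℕ) : Prop :=
  ∃ 𝔥 : EndSpace n ℓ, KillsTateTensors ρ 𝔥 ∧ ReductiveOfRank (scalars ℓ 𝔤) 𝔥 r ∧
    ∀ Z, CentralIn 𝔥 Z → BlockScalar (k := ℚ_[ℓ]) (V := fun i => Fin (n i) → ℚ_[ℓ]) Z

end Pool.Agent.Helper49D
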