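import Mathlib

/-!
# Matrices over the `ℓ`-adic numbers with entries divisible by `ℓ ^ k`
-/

set_option autoImplicit false
set_option linter.unusedSectionVars false

namespace Pool.Agent.Helper49D

variable {ℓ : ℕ} [hℓ : Fact ℓ.Prime]

/-- all entries are divisible by `ℓ ^ k` -/
def Dv {a b : Type} (k : ℕ) (A : Matrix a b ℚ_[ℓ]) : Prop := ∀ x y, ‖A x y‖ ≤ ((ℓ : ℝ)⁻¹) ^ k

theorem inv_nonneg' : (0 : ℝ) ≤ ((ℓ : ℝ)⁻¹) := by positivity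

theorem inv_pos' : (0 : ℝ) < ((ℓ : ℝ)⁻¹) := by
  have := hℓ.out.pos
  positivity

theorem inv_lt_one' : ((ℓ : ℝ)⁻¹) < 1 := by
  have h1 : (1 : ℝ) < ℓ := by exact_mod_cast hℓ.out.one_lt
  exact inv_lt_one_of_one_lt₀ h1

theorem dv_zero {a b : Type} (k : ℕ) : Dv k (0 : Matrix a b ℚ_[ℓ]) := by
  intro x y
  rw [Matrix.zero_apply, norm_zero]
  exact pow_nonneg inv_nonneg' k

theorem dv_add {a b : Type} {k : ℕ} {A B : Matrix a b ℚ_[ℓ]} (hA : Dv k A) (hB : Dv k B) :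
    Dv k (A + B) := by
  intro x y
  rw [Matrix.add_apply]
  exact (IsUltrametricDist.norm_add_le_max _ _).trans (max_le (hA x y) (hB x y))

theorem dv_neg {a b : Type} {k : ℕ} {A : Matrix a b ℚ_[ℓ]} (hA : Dv k A) : Dv k (-A) := by
  intro x y
  rw [Matrix.neg_apply, norm_neg]
  exact hA x y

theorem dv_sub {a b : Type} {k : ℕ} {A B : Matrix a b ℚ_[ℓ]} (hA : Dv k A) (hB : Dv k B) :
    Dv k (A - B) := by
  rw [sub_eq_add_neg]
  exact dv_add hA (dv_neg hB)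

theorem dv_mono {a b : Type} {k l : ℕ} (h : k ≤ l) {A : Matrix a b ℚ_[ℓ]} (hA : Dv l A) :
    Dv k A := fun x y =>
  (hA x y).trans (pow_le_pow_of_le_one inv_nonneg' inv_lt_one'.le h)

theorem dv_one {a : Type} [DecidableEq a] : Dv 0 (1 : Matrix a a ℚ_[ℓ]) := by
  intro x y
  rw [pow_zero, Matrix.one_apply]
  split
  · rw [norm_one]
  · rw [norm_zero]
    exact zero_le_one

theorem dv_mul {a b c : Type} [Fintype b] {k l : ℕ} {A : Matrix a b ℚ_[ℓ]} {B : Matrix b c ℚ_[ℓ]}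
    (hA : Dv k A) (hB : Dv l B) : Dv (k + l) (A * B) := by
  intro x y
  rw [Matrix.mul_apply]
  refine IsUltrametricDist.norm_sum_le_of_forall_le_of_nonneg (pow_nonneg inv_nonneg' _) ?_
  intro z _
  rw [norm_mul, pow_add]
  exact mul_le_mul (hA x z) (hB z y) (norm_nonneg _) (pow_nonneg inv_nonneg' _)

theorem dv_mul_left {a b c : Type} [Fintype b] {k : ℕ} {A : Matrix a b ℚ_[ℓ]}
    {B : Matrix b c ℚ_[ℓ]} (hA : Dv 0 A) (hB : Dv k B) : Dv k (A * B) := by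
  have h := dv_mul hA hB
  rwa [zero_add] at h

theorem dv_mul_right {a b c : Type} [Fintype b] {k : ℕ} {A : Matrix a b ℚ_[ℓ]}
    {B : Matrix b c ℚ_[ℓ]} (hA : Dv k A) (hB : Dv 0 B) : Dv k (A * B) := by
  have h := dv_mul hA hB
  rwa [add_zero] at h

theorem dv_natCast {a b : Type} {k : ℕ} (m : ℕ) {A : Matrix a b ℚ_[ℓ]} (hA : Dv k A) :
    Dv k ((m : ℚ_[ℓ]) • A) := by
  intro x y
  rw [Matrix.smul_apply, smul_eq_mul, norm_mul]
  have h1 : ‖(m : ℚ_[ℓ])‖ ≤ 1 := by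
    have := Padic.norm_int_le_one (p := ℓ) (m : ℤ)
    exact_mod_cast this
  calc ‖(m : ℚ_[ℓ])‖ * ‖A x y‖ ≤ 1 * ‖A x y‖ := mul_le_mul_of_nonneg_right h1 (norm_nonneg _)
    _ = ‖A x y‖ := one_mul _
    _ ≤ _ := hA x y

theorem dv_prime {a b : Type} {k : ℕ} {A : Matrix a b ℚ_[ℓ]} (hA : Dv k A) :
    Dv (k + 1) ((ℓ : ℚ_[ℓ]) • A) := by
  intro x y
  rw [Matrix.smul_apply, smul_eq_mul, norm_mul, Padic.norm_p, pow_succ, mul_comm]
  exact mul_le_mul_of_nonneg_right (hA x y) inv_nonneg'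

/-- The inverse of a matrix congruent to `1` modulo `ℓ` is integral. -/
theorem dv_inv {a : ℕ} {A B : Matrix (Fin a) (Fin a) ℚ_[ℓ]} (hAB : A * B = 1)
    (hA : Dv 1 (A - 1)) : Dv 0 B := by
  rcases Nat.eq_zero_or_pos a with h0 | h0
  · subst h0
    intro x
    exact x.elim0
  have : Nonempty (Fin a) := ⟨⟨0, h0⟩⟩
  obtain ⟨⟨x₀, y₀⟩, hmax⟩ := Finite.exists_max fun z : Fin a × Fin a => ‖B z.1 z.2‖
  have hB : B = 1 - (A - 1) * B := by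
    rw [Matrix.sub_mul, hAB, Matrix.one_mul]
    abel
  have hle : ‖B x₀ y₀‖ ≤ 1 := by
    by_contra hcon
    push Not at hcon
    have h1 : ‖((A - 1) * B) x₀ y₀‖ ≤ (ℓ : ℝ)⁻¹ * ‖B x₀ y₀‖ := by
      rw [Matrix.mul_apply]
      refine IsUltrametricDist.norm_sum_le_of_forall_le_of_nonneg
        (mul_nonneg inv_nonneg' (norm_nonneg _)) ?_
      intro z _
      rw [norm_mul]
      have h2 := hA x₀ z
      rw [pow_one] at h2
      exact mul_le_mul h2 (hmax (z, y₀)) (norm_nonneg _) inv_nonneg'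
    have h2 : (ℓ : ℝ)⁻¹ * ‖B x₀ y₀‖ < ‖B x₀ y₀‖ := by
      have h3 : (0 : ℝ) < ‖B x₀ y₀‖ := zero_lt_one.trans hcon
      calc (ℓ : ℝ)⁻¹ * ‖B x₀ y₀‖ < 1 * ‖B x₀ y₀‖ := mul_lt_mul_of_pos_right inv_lt_one' h3
        _ = ‖B x₀ y₀‖ := one_mul _
    have h3 : ‖B x₀ y₀‖ ≤ max ‖(1 : Matrix (Fin a) (Fin a) ℚ_[ℓ]) x₀ y₀‖
        ‖((A - 1) * B) x₀ y₀‖ := by
      have h4 := congrFun (congrFun hB x₀) y₀
      rw [Matrix.sub_apply] at h4
      nth_rewrite 1 [h4]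
      rw [sub_eq_add_neg]
      refine (IsUltrametricDist.norm_add_le_max _ _).trans ?_
      rw [norm_neg]
    have h4 := dv_one (ℓ := ℓ) x₀ y₀
    rw [pow_zero] at h4
    have h5 : max ‖(1 : Matrix (Fin a) (Fin a) ℚ_[ℓ]) x₀ y₀‖ ‖((A - 1) * B) x₀ y₀‖ <
        ‖B x₀ y₀‖ := max_lt (h4.trans_lt hcon) (h1.trans_lt h2)
    exact absurd h3 (not_le.2 h5)
  intro x y
  rw [pow_zero]
  exact (hmax (x, y)).trans hle

/-- The powers of a matrix congruent to `1` modulo `ℓ ^ k`. -/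
theorem dv_pow {a : ℕ} {k : ℕ} {A : Matrix (Fin a) (Fin a) ℚ_[ℓ]} (hA : Dv k (A - 1)) (m : ℕ) :
    Dv (k + k) (A ^ m - 1 - (m : ℚ_[ℓ]) • (A - 1)) := by
  induction m with
  | zero =>
    rw [pow_zero, sub_self, Nat.cast_zero, zero_smul, sub_zero]
    exact dv_zero _
  | succ m ih =>
    have h1 : A ^ (m + 1) - 1 - ((m + 1 : ℕ) : ℚ_[ℓ]) • (A - 1) =
        (A ^ m - 1 - (m : ℚ_[ℓ]) • (A - 1)) * A + (m : ℚ_[ℓ]) • ((A - 1) * (A - 1)) := by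
      have h2 : (A - 1) * A = (A - 1) * (A - 1) + (A - 1) := by
        rw [Matrix.mul_sub (A - 1), Matrix.mul_one, sub_add_cancel]
      rw [pow_succ, Nat.cast_add, Nat.cast_one, add_smul, one_smul, Matrix.sub_mul,
        Matrix.sub_mul, Matrix.one_mul, Matrix.smul_mul, h2, smul_add]
      abel
    have h2 : Dv 0 A := by
      have h3 := dv_add (dv_mono (Nat.zero_le k) hA) dv_one
      rwa [sub_add_cancel] at h3
    rw [h1]
    exact dv_add (dv_mul_right ih h2) (dv_natCast m (dv_mul hA hA))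

theorem dv_pow_prime {a : ℕ} {k : ℕ} (hk : 2 ≤ k) {A : Matrix (Fin a) (Fin a) ℚ_[ℓ]}
    (hA : Dv k (A - 1)) : Dv (k + 2) (A ^ ℓ - 1 - (ℓ : ℚ_[ℓ]) • (A - 1)) :=
  dv_mono (by omega) (dv_pow hA ℓ)

section red

open scoped Classical in
/-- the reduction modulo `ℓ` (of an integral number) -/
noncomputable def red (x : ℚ_[ℓ]) : ZMod ℓ :=
  if h : ‖x‖ ≤ 1 then PadicInt.toZMod ⟨x, h⟩ else 0

theorem toZMod_eq_iff (X Y : ℤ_[ℓ]) : PadicInt.toZMod X = PadicInt.toZMod Y ↔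
    ‖(X : ℚ_[ℓ]) - (Y : ℚ_[ℓ])‖ ≤ (ℓ : ℝ)⁻¹ := by
  rw [← sub_eq_zero, ← map_sub, ← RingHom.mem_ker, PadicInt.ker_toZMod,
    PadicInt.maximalIdeal_eq_span_p]
  have h1 := PadicInt.norm_le_pow_iff_mem_span_pow (p := ℓ) (X - Y) 1
  rw [pow_one, Nat.cast_one, zpow_neg_one] at h1
  rw [← h1]
  rfl

theorem red_eq_iff {x y : ℚ_[ℓ]} (hx : ‖x‖ ≤ 1) (hy : ‖y‖ ≤ 1) :
    red x = red y ↔ ‖x - y‖ ≤ (ℓ : ℝ)⁻¹ := by
  rw [red, red, dif_pos hx, dif_pos hy]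
  exact toZMod_eq_iff _ _

end red

end Pool.Agent.Helper49D
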