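import Pool.Agent.N978.HP.Final
import Pool.Agent.Helper49D.Cong
import Pool.Agent.Helper49D.Defs
import Pool.Agent.Helper49C.Defs
import Pool.Agent.Helper49A.Jordan

/-!
# 100 percent of the members have the full image at one prime number
-/

set_option autoImplicit false
set_option linter.unusedSectionVars false

namespace Pool.Agent.Helper49D

open NumberField IsDedekindDomain Polynomial Module Filter Topology
  Pool.Agent.Y114.TF Pool.Agent.Y114.GF Pool.Agent.H204R3.GP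
  Pool.Agent.Y114.MU Pool.Agent.Y114.RM Pool.Agent.R931.IR Pool.Agent.N203.RE
  Pool.Agent.N978.HP Pool.Agent.Helper49C

section group

variable {Γ : Type} [Group Γ]

/-- A subgroup with the preimage of finite index, all whose cosets are represented. -/
theorem finiteIndex_of_surj {G : Type} [Group G] (s : G →* Γ) (N : Subgroup Γ)
    (hs : ∀ γ, ∃ σ, γ⁻¹ * s σ ∈ N) (h : (N.comap s).FiniteIndex) : N.FiniteIndex := by
  have h1 : Finite (G ⧸ N.comap s) := Subgroup.finite_quotient_of_finiteIndex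
  have h2 : Finite (Γ ⧸ N) := by
    refine Finite.of_surjective (Quotient.map' (s₁ := QuotientGroup.leftRel (N.comap s))
      (s₂ := QuotientGroup.leftRel N) s ?_) ?_
    · intro a b hab
      rw [QuotientGroup.leftRel_apply] at hab ⊢
      rw [← map_inv, ← map_mul]
      exact hab
    · intro x
      induction x using Quotient.inductionOn' with
      | h γ =>
        obtain ⟨σ, hσ⟩ := hs γ
        refine ⟨Quotient.mk'' σ, ?_⟩
        rw [Quotient.map'_mk'']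
        refine Quotient.sound' ?_
        rw [QuotientGroup.leftRel_apply]
        have h3 := N.inv_mem hσ
        rwa [mul_inv_rev, inv_inv] at h3
  exact Subgroup.finiteIndex_of_finite_quotient

/-- A subgroup which meets the conjugates of all cosets of a normal subgroup of finite index. -/
theorem sup_eq_top (H N : Subgroup Γ) [hN : N.Normal] [hNf : N.FiniteIndex]
    (h : ∀ q : Γ ⧸ N, ∃ h ∈ H, ∃ δ : Γ, ((δ⁻¹ * h * δ : Γ) : Γ ⧸ N) = q) : H ⊔ N = ⊤ := by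
  by_contra hne
  have hfi : (H ⊔ N).FiniteIndex := Subgroup.finiteIndex_of_le le_sup_right
  obtain ⟨g, hg⟩ := Pool.Agent.Helper49A.exists_no_conj (H ⊔ N) hne
  obtain ⟨h, hh, δ, hδ⟩ := h (g : Γ ⧸ N)
  have h1 : (δ⁻¹ * h * δ)⁻¹ * g ∈ N := QuotientGroup.eq.1 hδ
  apply hg δ⁻¹
  have h2 : (δ⁻¹)⁻¹ * g * δ⁻¹ = h * (δ * ((δ⁻¹ * h * δ)⁻¹ * g) * δ⁻¹) := by group
  rw [h2]
  exact (H ⊔ N).mul_mem (Subgroup.mem_sup_left hh)
    (Subgroup.mem_sup_right (hN.conj_mem _ h1 δ))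

end group

section family

variable {Γ : Type} [Group Γ] [TopologicalSpace Γ] {ι : Type} [Fintype ι] [DecidableEq ι]
  {n : ι → ℕ} {s : Pt → Gal(AlgebraicClosure ℚ/ℚ) →* Γ} {w : ι → ℤ} {m : ℕ}
  {D : MvPolynomial (Fin 2) ℤ} {P : ℕ → Pt → ι → ℚ[X]}
  {ρ : ∀ (ℓ : ℕ) [Fact ℓ.Prime], Reps Γ n ℓ} {𝔤 : Submodule ℚ (End ℚ (Betti n))}

omit [TopologicalSpace Γ] [Fintype ι] [DecidableEq ι] in
theorem mem_cong_of_trivial {ℓ : ℕ} [Fact ℓ.Prime] {ρ : Reps Γ n ℓ} {γ : Γ}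
    (h : ∀ i, ρ i γ = 1) (k : ℕ) : γ ∈ (cong ρ k).normalCore := by
  intro δ i
  have h1 : mx (ρ i) (δ * γ * δ⁻¹) = 1 := by
    rw [mx_mul, mx_mul]
    have h2 : mx (ρ i) γ = 1 := by
      rw [mx, h i, LinearMap.toMatrix'_one]
    rw [h2, Matrix.mul_one, mx_mul_inv]
  rw [h1, sub_self]
  exact dv_zero _

omit [TopologicalSpace Γ] [Fintype ι] [DecidableEq ι] in
theorem trivial_of_same {ℓ : ℕ} [Fact ℓ.Prime] {ρ : Reps Γ n ℓ} {γ δ : Γ}
    (h : ∀ i, ρ i γ = ρ i δ) (i : ι) : ρ i (γ⁻¹ * δ) = 1 := by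
  rw [map_mul, ← h i, ← map_mul, inv_mul_cancel, map_one]

theorem conts_member (h : Family s w m D P ρ 𝔤) {t : Pt} (ht : InU D t) (ℓ : ℕ)
    [Fact ℓ.Prime] : Conts (restrictTo (ρ ℓ) (s t)) := fun i =>
  (h.continuous ℓ i).comp (h.continuous_point t ht)

/-- The preimage of the normal core of a congruence subgroup is open. -/
theorem isOpen_core {ℓ : ℕ} [Fact ℓ.Prime] (ρ : Reps Γ n ℓ)
    (s : Gal(AlgebraicClosure ℚ/ℚ) →* Γ) (hs : Conts (restrictTo ρ s)) (k : ℕ)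
    (hf : (cong ρ k).FiniteIndex) :
    IsOpen (((cong ρ k).normalCore.comap s : Subgroup Gal(AlgebraicClosure ℚ/ℚ)) :
      Set Gal(AlgebraicClosure ℚ/ℚ)) := by
  have h1 : IsClosed (((cong ρ k).normalCore.comap s : Subgroup Gal(AlgebraicClosure ℚ/ℚ)) :
      Set Gal(AlgebraicClosure ℚ/ℚ)) := by
    have h2 : (((cong ρ k).normalCore.comap s : Subgroup Gal(AlgebraicClosure ℚ/ℚ)) :
        Set Gal(AlgebraicClosure ℚ/ℚ)) = ⋂ δ : Γ, {σ | δ * s σ * δ⁻¹ ∈ cong ρ k} := by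
      ext σ
      simp only [Set.mem_iInter]
      rfl
    rw [h2]
    exact isClosed_iInter fun δ => isClosed_conj hs k δ δ⁻¹
  have hfc : (cong ρ k).normalCore.FiniteIndex := inferInstance
  have h3 : ((cong ρ k).normalCore.comap s).FiniteIndex := by
    refine ⟨fun h0 => hfc.index_ne_zero ?_⟩
    rw [Subgroup.index_comap] at h0
    have h4 := Subgroup.relIndex_dvd_index_of_normal (cong ρ k).normalCore s.range
    rw [h0] at h4
    exact zero_dvd_iff.1 h4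
  exact Subgroup.isOpen_of_isClosed_of_finiteIndex _ h1

/-- 100 percent of the members have the full image at `ℓ₀`, if this is so for one member. -/
theorem full_almostAll (hSV : S_SV) (hDV : S_DV) (hAA : S_AA) (h : Family s w m D P ρ 𝔤)
    (hF : FrobeniusReduction s m D ρ) {t₀ : Pt} (ht₀ : InU D t₀) (ℓ₀ : ℕ) [hℓ₀ : Fact ℓ₀.Prime]
    (hfull : FullImage (ρ ℓ₀) (s t₀)) : AlmostAll fun t => FullImage (ρ ℓ₀) (s t) := by
  classical
  have hcomp : CompactSpace Gal(AlgebraicClosure ℚ/ℚ) := compact ℚ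
  obtain ⟨k, hk⟩ := exists_level (ρ ℓ₀)
  have hs₀ := conts_member h ht₀ ℓ₀
  -- the congruence subgroup has finite index
  have hNf : (cong (ρ ℓ₀) k).FiniteIndex := by
    refine finiteIndex_of_surj (s t₀) _ (fun γ => ?_) ?_
    · obtain ⟨σ, hσ⟩ := hfull γ
      exact ⟨σ, Subgroup.normalCore_le _ (mem_cong_of_trivial (trivial_of_same hσ) k)⟩
    · have h1 : IsOpen (((cong (ρ ℓ₀) k).comap (s t₀) : Subgroup Gal(AlgebraicClosure ℚ/ℚ)) :
          Set Gal(AlgebraicClosure ℚ/ℚ)) := by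
        have h2 := isOpen_conj hs₀ k (1 : Γ) (1 : Γ)
        have h3 : (((cong (ρ ℓ₀) k).comap (s t₀) : Subgroup Gal(AlgebraicClosure ℚ/ℚ)) :
            Set Gal(AlgebraicClosure ℚ/ℚ)) = {σ | (1 : Γ) * s t₀ σ * 1 ∈ cong (ρ ℓ₀) k} := by
          ext σ
          show s t₀ σ ∈ cong (ρ ℓ₀) k ↔ (1 : Γ) * s t₀ σ * 1 ∈ cong (ρ ℓ₀) k
          rw [one_mul, mul_one]
        rw [h3]
        exact h2
      have h3 := Subgroup.quotient_finite_of_isOpen _ h1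
      exact Subgroup.finiteIndex_of_finite_quotient
  set N' : Subgroup Γ := (cong (ρ ℓ₀) k).normalCore with hN'
  have hN'n : N'.Normal := inferInstance
  have hN'f : N'.FiniteIndex := inferInstance
  have hfin : Finite (Γ ⧸ N') := Subgroup.finite_quotient_of_finiteIndex
  have hop := isOpen_core (ρ ℓ₀) (s t₀) hs₀ k hNf
  have hB : ({p : ℕ | p.Prime ∧ ¬ GoodAt m D t₀ p} ∪ {ℓ₀} : Set ℕ).Finite :=
    (badPrimes_finite h.pos ht₀).union (Set.finite_singleton _)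
  -- one coset
  have hq : ∀ q : Γ ⧸ N', AlmostAll fun t => ∃ σ : Gal(AlgebraicClosure ℚ/ℚ), ∃ δ : Γ,
      ((δ⁻¹ * s t σ * δ : Γ) : Γ ⧸ N') = q := by
    intro q
    obtain ⟨g, rfl⟩ := QuotientGroup.mk_surjective q
    obtain ⟨σ₀, hσ₀⟩ := hfull g
    have hg : g⁻¹ * s t₀ σ₀ ∈ N' := mem_cong_of_trivial (trivial_of_same hσ₀) k
    let O : Set Gal(AlgebraicClosure ℚ/ℚ) := {σ | σ₀⁻¹ * σ ∈ N'.comap (s t₀)}
    have hO : IsOpen O := hop.preimage (continuous_const_mul σ₀⁻¹)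
    have hne : O.Nonempty := ⟨σ₀, by
      show σ₀⁻¹ * σ₀ ∈ N'.comap (s t₀)
      rw [inv_mul_cancel]
      exact Subgroup.one_mem _⟩
    have hpos : PosDensity _ := primes_pos O hO hne _ hB
    refine almostAll_mono (sieve_point hSV hDV hpos (fun p hp => hp.1) t₀ 1) ?_
    rintro t ⟨F, hF1, hFp⟩
    obtain ⟨p, hp⟩ := Finset.card_pos.1 hF1
    obtain ⟨⟨hpp, hpB, v, hpv, hex⟩, hcong⟩ := hFp p hp
    obtain ⟨φ, ⟨Q, hQ, hQv, hφ⟩, hφO⟩ : ∃ φ : Gal(AlgebraicClosure ℚ/ℚ),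
      Pool.Agent.W401.Cheb.IsFrob v φ ∧ φ⁻¹ ∈ O := hex
    have hgood₀ : GoodAt m D t₀ p := by
      by_contra hcon
      exact hpB (Or.inl ⟨hpp, hcon⟩)
    have hpℓ : p ≠ ℓ₀ := fun h' => hpB (Or.inr h')
    have hgood := good_of_cong h.form hgood₀ hcong
    obtain ⟨γ, hγ⟩ := hF ℓ₀ t t₀ p hgood hgood₀ hcong hpℓ v hpv Q ⟨hQ.isPrime, hQv⟩ φ hφ
    refine ⟨φ⁻¹, γ, ?_⟩
    have h1 : ∀ i, ρ ℓ₀ i (γ⁻¹ * s t φ * γ) = ρ ℓ₀ i (s t₀ φ) := by
      intro i
      rw [map_mul, map_mul, hγ i, ← map_mul, ← map_mul]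
      congr 1
      group
    have h2 : (γ⁻¹ * s t φ * γ)⁻¹ * s t₀ φ ∈ N' := mem_cong_of_trivial (trivial_of_same h1) k
    have h3 : s t₀ (σ₀⁻¹ * φ⁻¹) ∈ N' := hφO
    -- in the quotient
    have e1 : ((g : Γ) : Γ ⧸ N') = ((s t₀ σ₀ : Γ) : Γ ⧸ N') := QuotientGroup.eq.2 hg
    have e2 : ((γ⁻¹ * s t φ * γ : Γ) : Γ ⧸ N') = ((s t₀ φ : Γ) : Γ ⧸ N') := QuotientGroup.eq.2 h2
    have e3 : ((s t₀ σ₀ : Γ) : Γ ⧸ N') = ((s t₀ φ⁻¹ : Γ) : Γ ⧸ N') := by
      refine QuotientGroup.eq.2 ?_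
      rwa [← map_inv, ← map_mul]
    have e4 : (γ⁻¹ * s t φ⁻¹ * γ : Γ) = (γ⁻¹ * s t φ * γ)⁻¹ := by
      rw [map_inv]
      group
    rw [e1, e3, e4, map_inv]
    exact congrArg (fun x : Γ ⧸ N' => x⁻¹) e2
  refine almostAll_mono (hAA _ _ (almostAll_inU hSV hDV h.pos h.form ht₀)
    (almostAll_forall hAA hq)) ?_
  rintro t ⟨ht, htq⟩
  have htop : (s t).range ⊔ N' = ⊤ := by
    refine sup_eq_top _ _ fun q => ?_
    obtain ⟨σ, δ, h1⟩ := htq q
    exact ⟨s t σ, ⟨σ, rfl⟩, δ, h1⟩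
  have hcos : ∀ γ, ∃ h ∈ (s t).range, h⁻¹ * γ ∈ cong (ρ ℓ₀) k := by
    intro γ
    have h1 : γ ∈ (s t).range ⊔ N' := htop ▸ Subgroup.mem_top γ
    obtain ⟨y, hy, z, hz, rfl⟩ := Subgroup.mem_sup_of_normal_right.1 h1
    refine ⟨y, hy, ?_⟩
    rw [inv_mul_cancel_left]
    exact Subgroup.normalCore_le _ hz
  exact full_of_cong (conts_member h ht ℓ₀) (hk _ hcos)

end family

section same

variable {Γ₁ Γ₂ : Type} [Group Γ₁] [Group Γ₂] {ι : Type} {n : ι → ℕ} {ℓ : ℕ} [Fact ℓ.Prime]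

/-- Connectedness depends only on the image. -/
theorem zariskiConnected_of_same {r₁ : Reps Γ₁ n ℓ} {r₂ : Reps Γ₂ n ℓ}
    (h12 : ∀ a, ∃ b, ∀ i, r₁ i a = r₂ i b) (h21 : ∀ b, ∃ a, ∀ i, r₁ i a = r₂ i b)
    (hc : ZariskiConnected r₁) : ZariskiConnected r₂ := by
  intro Δ₂ hΔ₂ f hf
  let Δ₁ : Subgroup Γ₁ :=
    { carrier := {a | ∃ b ∈ Δ₂, ∀ i, r₁ i a = r₂ i b}
      mul_mem' := by
        rintro a a' ⟨b, hb, h⟩ ⟨b', hb', h'⟩
        exact ⟨b * b', Δ₂.mul_mem hb hb', fun i => by rw [map_mul, map_mul, h, h']⟩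
      one_mem' := ⟨1, Δ₂.one_mem, fun i => by rw [map_one, map_one]⟩
      inv_mem' := by
        rintro a ⟨b, hb, h⟩
        refine ⟨b⁻¹, Δ₂.inv_mem hb, fun i => ?_⟩
        have h1 : r₁ i a⁻¹ * r₁ i a = 1 := by rw [← map_mul, inv_mul_cancel, map_one]
        have h2 : r₂ i b * r₂ i b⁻¹ = 1 := by rw [← map_mul, mul_inv_cancel, map_one]
        rw [← h i] at h2
        calc r₁ i a⁻¹ = r₁ i a⁻¹ * (r₁ i a * r₂ i b⁻¹) := by rw [h2, mul_one]
          _ = r₂ i b⁻¹ := by rw [← mul_assoc, h1, one_mul] }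
  choose A hA using h21
  have hmem : ∀ a, (∃ b ∈ Δ₂, ∀ i, r₁ i a = r₂ i b) → a ∈ Δ₁ := fun a h => h
  have hAinv : ∀ b b', ∀ i, r₁ i ((A b)⁻¹ * A b') = r₂ i (b⁻¹ * b') := by
    intro b b' i
    have h1 : r₁ i (A b) * r₁ i ((A b)⁻¹ * A b') = r₁ i (A b) * r₂ i (b⁻¹ * b') := by
      rw [← map_mul, mul_inv_cancel_left, hA b, ← map_mul, mul_inv_cancel_left, hA b']
    have h2 : r₁ i (A b)⁻¹ * r₁ i (A b) = 1 := by rw [← map_mul, inv_mul_cancel, map_one]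
    calc r₁ i ((A b)⁻¹ * A b') = r₁ i (A b)⁻¹ * (r₁ i (A b) * r₁ i ((A b)⁻¹ * A b')) := by
          rw [← mul_assoc, h2, one_mul]
      _ = r₂ i (b⁻¹ * b') := by rw [h1, ← mul_assoc, h2, one_mul]
  have hΔ₁ : Δ₁.FiniteIndex := by
    have h1 : Finite (Γ₂ ⧸ Δ₂) := Subgroup.finite_quotient_of_finiteIndex
    have h2 : Finite (Γ₁ ⧸ Δ₁) := by
      refine Finite.of_surjective (Quotient.map' (s₁ := QuotientGroup.leftRel Δ₂)
        (s₂ := QuotientGroup.leftRel Δ₁) A ?_) ?_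
      · intro b b' hb
        rw [QuotientGroup.leftRel_apply] at hb ⊢
        exact hmem _ ⟨b⁻¹ * b', hb, hAinv b b'⟩
      · intro x
        induction x using Quotient.inductionOn' with
        | h a =>
          obtain ⟨b, hb⟩ := h12 a
          refine ⟨Quotient.mk'' b, ?_⟩
          rw [Quotient.map'_mk'']
          refine Quotient.sound' ?_
          rw [QuotientGroup.leftRel_apply]
          refine hmem _ ⟨1, Δ₂.one_mem, fun i => ?_⟩
          rw [map_one]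
          have h3 : r₁ i (A b) = r₁ i a := (hA b i).trans (hb i).symm
          rw [map_mul, ← h3, ← map_mul, inv_mul_cancel, map_one]
    exact Subgroup.finiteIndex_of_finite_quotient
  have hent : ∀ a b, (∀ i, r₁ i a = r₂ i b) → entries r₁ a = entries r₂ b := by
    intro a b hab
    funext x
    rw [entries, entries, hab]
  have h1 := hc Δ₁ hΔ₁ f (by
    rintro a ⟨b, hb, hab⟩
    rw [hent a b hab]
    exact hf b hb)
  intro b
  rw [← hent (A b) b (hA b)]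
  exact h1 (A b)

end same

end Pool.Agent.Helper49D
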