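import Pool.Agent.Helper49D.Main
import Pool.Agent.N592.HP.SV
import Pool.Agent.N279.HP.DV

/-!
# Families of motives with connected monodromy: from one member at one prime to 100 percent of the
# members at every prime

Let `M` be the sum of finitely many families `M i` of pure motives of dimension `n i` and weight `w i`
over an open subset `U` of the projective line over `ℚ`, and let `𝔤` be the Lie algebra of the motivic
Galois group of the generic member (over an algebraically closed field), of rank at most `r`. The
structure `Family` (library `Pool.Agent.N978.HP`) states the properties which are used: good reduction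
outside of the divisors of `m`, with pure Frobenius polynomials in `ℚ[X]` which are independent of `ℓ`
and depend only on the reduction of the parameter; `𝔤` is reductive, and the tensors killed by
`𝔤 ⊗ ℚ_ℓ` are Tate tensors. `FrobeniusReduction` says in addition that the conjugacy class of Frobenius
in the fundamental group `Γ` of `U` depends only on the reduction of the parameter (the `ℓ`-adic
realization extends to a lisse sheaf on a model of `U` over `ℤ[1/mℓ]`).

**Theorem.** Suppose that for ONE prime number `ℓ₀` and ONE rational point `t₀` of `U`
* the `ℓ₀`-adic image of the Galois group of `ℚ` on `M_{t₀}` is the one of `Γ` (by Hilbert's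
  irreducibility theorem, in the form of Serre, this is so for 100 percent of the members),
* its Zariski closure is connected,
* it contains an element with `r` multiplicatively independent eigenvalues (for instance a Frobenius
  element, or if the Mumford-Tate conjecture holds at `ℓ₀`).

Then 100 percent of the rational points `t` of the projective line, ordered by height, are in `U`, the
Galois group of `ℚ` has the full image at `ℓ₀` on `M_t`, and for EVERY prime number `ℓ`:
* the `ℓ`-adic realization of `M_t` is semisimple over all finite extensions of `ℚ`;
* all Tate tensors of `M_t` at `ℓ` are motivated (that is, killed by `𝔤 ⊗ ℚ_ℓ`) if and only if all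
  endomorphisms of the `ℓ`-adic realization which commute with the Galois group of `ℚ` itself are
  motivated;
* the Lie algebra of the endomorphisms which kill all Tate tensors is a reductive subalgebra of
  `𝔤 ⊗ ℚ_ℓ` of rank at least `r`, and its center acts by scalars on each summand;
* if `𝔤` is of type A, all Tate tensors of `M_t` at `ℓ` are motivated: the motivic Galois group of
  `M_t` has the Lie algebra `𝔤`, and its identity component is the one of the Zariski closure of the
  image of the Galois group of `ℚ`.

And if `𝔤` is of type A, the Tate tensors of the generic member, over the field of rational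
functions, are motivated, for EVERY prime number `ℓ`.

There is no condition on the local monodromy (in `RegularCuspFamilies`, among the earlier results on
this page, the monodromy at a cusp is regular unipotent), and nothing is assumed at the prime numbers
`ℓ ≠ ℓ₀`. The known results on the exceptional members of a family (Serre, Terasoma, André,
Cadoret-Tamagawa) are for one `ℓ`; independence of `ℓ` of the exceptional set is known for abelian
schemes (Hui).

## The proof

(1) Let `𝒢` be the image of `Γ` at `ℓ₀`, a compact group. The elements of `𝒢` congruent to `1` modulo
`ℓ₀ ^ k`, modulo those congruent to `1` modulo `ℓ₀ ^ (k + 1)`, are compared for different `k` by the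
power map with the exponent `ℓ₀` (`Dv`, `Cong`). So they are the same vector space for large `k`, and
a closed subgroup which represents all cosets of one congruence subgroup is the whole group `𝒢`
(`Frat`, `Cong`).

(2) By Chebotarev's theorem for the member `M_{t₀}`, each conjugacy class of the finite quotient is
the class of the Frobenius elements at a set of prime numbers of positive density. By a sieve
(`Pool.Agent.N592.HP`, helper592; `Pool.Agent.N279.HP`, helper279) 100 percent of the points `t` are
congruent to `t₀` modulo one of these prime numbers, for each of the classes, so the image for `M_t`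
meets all conjugacy classes of the quotient. By Jordan's lemma and (1) it is `𝒢` (`Full`). So the
monodromy group at `ℓ₀` of 100 percent of the members is connected.

(3) Similarly 100 percent of the members have two prime numbers of maximal rank (library
`Pool.Agent.N978.HP`). Then the theorem about connected monodromy at one prime number (library
`Pool.Agent.Helper49C`, result `ConnectedAtOnePrime` of `MP_3703a7_ag`) applies to them.
-/

set_option autoImplicit false

namespace Pool.Agent.Helper49D.Kept

open Polynomial Module Pool.Agent.Y114.RM Pool.Agent.R931.IR Pool.Agent.N203.RE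
  Pool.Agent.N978.HP Pool.Agent.Helper49D

theorem result {Γ : Type} [Group Γ] [TopologicalSpace Γ] {ι : Type} [Fintype ι] [DecidableEq ι]
    {n : ι → ℕ}
    -- the family over `U` and its motivic Lie algebra, of rank at most `r`
    (s : Pt → Gal(AlgebraicClosure ℚ/ℚ) →* Γ) (w : ι → ℤ) (m : ℕ) (D : MvPolynomial (Fin 2) ℤ)
    (P : ℕ → Pt → ι → ℚ[X]) (ρ : ∀ (ℓ : ℕ) [Fact ℓ.Prime], Reps Γ n ℓ)
    (𝔤 : Submodule ℚ (End ℚ (Betti n))) (h : Family s w m D P ρ 𝔤)
    (hF : FrobeniusReduction s m D ρ) (r : ℕ) (hr : RatRankLE 𝔤 r)
    -- one member, one prime number: full image, connected, with one element of maximal rank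
    (t₀ : Pt) (ht₀ : InU D t₀) (c : ℕ) (hc : IntegralMember m D P c t₀)
    (ℓ₀ : ℕ) [Fact ℓ₀.Prime] (hfull : FullImage (ρ ℓ₀) (s t₀))
    (hconn : Connected (restrictTo (ρ ℓ₀) (s t₀))) (σ : Gal(AlgebraicClosure ℚ/ℚ))
    (hσ : IndependentEigenvalues (restrictTo (ρ ℓ₀) (s t₀)) σ r) :
    -- 100 percent of the members, every prime number
    (AlmostAll fun t => InU D t ∧ FullImage (ρ ℓ₀) (s t) ∧ ∀ (ℓ : ℕ) [Fact ℓ.Prime],
      Semisimple (restrictTo (ρ ℓ) (s t)) ∧
      (TateMotivated (restrictTo (ρ ℓ) (s t)) 𝔤 ↔ EndosMotivated (restrictTo (ρ ℓ) (s t)) 𝔤) ∧
      LargeRank (restrictTo (ρ ℓ) (s t)) 𝔤 r ∧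
      (TypeA 𝔤 → TateMotivated (restrictTo (ρ ℓ) (s t)) 𝔤)) ∧
    -- the generic member
    (TypeA 𝔤 → ∀ (ℓ : ℕ) [Fact ℓ.Prime], TateMotivated (ρ ℓ) 𝔤) := by
  have h1 := main Pool.Agent.N592.HP.t_SV Pool.Agent.N279.HP.t_DV Pool.Agent.N592.HP.t_AA h hF r
    hr ht₀ c (fun _ i hv a ha => hc _ hv i a ha) ℓ₀ hfull hconn σ hσ
  refine ⟨h1, fun hA ℓ hℓ => ?_⟩
  obtain ⟨t, -, -, ht⟩ := exists_of_almostAll h1
  exact tate_generic h ((ht ℓ).2.2.2 hA)

end Pool.Agent.Helper49D.Kept
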